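import Pool.Agent.W_92892c_TF14.Brg28
import Pool.Agent.W_92892c_h3.FamInj

/-!
The congruent number curves are a family of known functions (MP_92892c_nt, THREE FACTORS).
-/

set_option autoImplicit false

namespace TF14

open Filter Topology

theorem euler_ne (W : WeierstrassCurve ℤ) (L : ℂ → ℂ) (hL : Differentiable ℂ L)
    (h : PPM.EulerProduct W L) : ∃ s, L s ≠ 0 := by
  have H := BSDS.hyp_W W L hL h
  exact ⟨1 + 3, BSDS.L_ne_zero H 3 (by norm_num)⟩

/-- The order and the leading coefficient at `1` of an entire function which is not zero. -/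
theorem exists_ord {L : ℂ → ℂ} (hL : Differentiable ℂ L) (hne : ∃ s, L s ≠ 0) :
    ∃ (m : ℕ) (b : ℂ), (∀ i < m, iteratedDeriv i L 1 = 0) ∧
      iteratedDeriv m L 1 / (m.factorial : ℂ) = b ∧ b ≠ 0 := by
  classical
  have hex : ∃ i, iteratedDeriv i L 1 ≠ 0 := by
    by_contra hcon
    push Not at hcon
    obtain ⟨s, hs⟩ := hne
    apply hs
    have h1 := Complex.taylorSeries_eq_of_entire' 1 s hL
    rw [← h1]
    simp [hcon]
  refine ⟨Nat.find hex, _, fun i hi => not_not.1 (Nat.find_min hex hi), rfl, ?_⟩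
  exact div_ne_zero (Nat.find_spec hex) (by exact_mod_cast (Nat.find hex).factorial_ne_zero)

/-- Infinitely many congruent number curves form a family of known functions. -/
theorem cong14 (d : ℕ → ℕ) (hd : Function.Injective d) (hsq : ∀ n, Squarefree (d n)) :
    ∃ (B : ℕ → ℂ → ℂ) (A : ℕ → ℝ) (m : ℕ → ℕ) (b : ℕ → ℂ),
      (∀ n, PPM.EulerProduct (PPM.twist (-1) (d n)) (B n)) ∧ Function.Injective A ∧
        Fam Complex.Gamma B A m b := by
  have hT : ∀ n, ((d n : ℕ) : ℤ) ∈ MQV.Twists true := fun n =>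
    ⟨Int.squarefree_natCast.2 (hsq n), fun _ => by
      exact_mod_cast Nat.pos_of_ne_zero (hsq n).ne_zero⟩
  choose B hB using fun n => MQV.fam_exists (d n : ℤ) (hT n)
  choose m b hm using fun n => exists_ord (hB n).1 (euler_ne _ _ (hB n).1 (hB n).2.1)
  have htop : Tendsto (fun n => MQV.famA (d n : ℤ)) atTop atTop := by
    rw [← Nat.cofinite_eq_atTop, tendsto_atTop]
    intro K
    have h1 : {x ∈ MQV.Twists true | MQV.famA x ≤ K}.Finite := MQV.fam_fin K
    have h2 : {n : ℕ | MQV.famA (d n : ℤ) ≤ K}.Finite := by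
      refine (h1.preimage (f := fun n : ℕ => (d n : ℤ)) ?_).subset ?_
      · intro x _ y _ hxy
        exact hd (Nat.cast_injective hxy)
      · intro n hn
        exact ⟨hT n, hn⟩
    rw [Filter.eventually_cofinite]
    refine h2.subset fun n hn => ?_
    exact (not_le.1 hn).le
  refine ⟨B, fun n => MQV.famA (d n : ℤ), m, b, fun n => ?_, ?_, ?_⟩
  · have h1 := (hB n).2.1
    rw [MQV.fam_curve] at h1
    exact h1
  · intro i j hij
    have h1 := MQV.famA_inj (hT i) (hT j) hij
    exact hd (Nat.cast_injective h1)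
  · exact ⟨MQV.fam_gamma, by rw [Complex.Gamma_one]; exact one_ne_zero,
      fun n => (hB n).1.analyticAt 1, fun n => MQV.famA_pos _ (hT n),
      fun n => MQV.fam_fe _ (hT n) _ (hB n).1 (hB n).2.1, htop, fun n => (hm n).1,
      fun n => (hm n).2.1, fun n => (hm n).2.2⟩

end TF14
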