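import Pool.Agent.W_92892c_TF14.End

/-!
Products of `L` with two known functions: at most `r` fixed pairs suffice (MP_92892c_nt,
THREE FACTORS).
-/

set_option autoImplicit false

namespace TF14

open Finset Filter Topology

/-- Functionals with common kernel zero: as many as the dimension suffice. -/
theorem select {V ι : Type} [AddCommGroup V] [Module ℂ V] [FiniteDimensional ℂ V] [DecidableEq ι]
    (ℓ : ι → V →ₗ[ℂ] ℂ) (s : Finset ι) :
    ∀ (n : ℕ) (W : Submodule ℂ V), Module.finrank ℂ W ≤ n →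
      (∀ v ∈ W, (∀ i ∈ s, ℓ i v = 0) → v = 0) →
      ∃ t : Finset ι, t ⊆ s ∧ t.card ≤ n ∧ ∀ v ∈ W, (∀ i ∈ t, ℓ i v = 0) → v = 0 := by
  intro n
  induction n with
  | zero =>
    intro W hW h
    refine ⟨∅, Finset.empty_subset _, by simp, fun v hv _ => ?_⟩
    have h1 : W = ⊥ := Submodule.finrank_eq_zero.1 (Nat.le_zero.1 hW)
    rw [h1] at hv
    exact (Submodule.mem_bot ℂ).1 hv
  | succ n ih =>
    intro W hW h
    by_cases hbot : W = ⊥
    · refine ⟨∅, Finset.empty_subset _, by simp, fun v hv _ => ?_⟩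
      rw [hbot] at hv
      exact (Submodule.mem_bot ℂ).1 hv
    · obtain ⟨v, hv, hv0⟩ := Submodule.exists_mem_ne_zero_of_ne_bot hbot
      have h1 : ∃ i ∈ s, ℓ i v ≠ 0 := by
        by_contra hcon
        push Not at hcon
        exact hv0 (h v hv hcon)
      obtain ⟨i, hi, hiv⟩ := h1
      have hlt : W ⊓ LinearMap.ker (ℓ i) < W := by
        refine lt_of_le_of_ne inf_le_left fun he => hiv ?_
        have h2 : v ∈ W ⊓ LinearMap.ker (ℓ i) := by
          rw [he]
          exact hv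
        exact LinearMap.mem_ker.1 h2.2
      have hfr := Submodule.finrank_lt_finrank_of_lt hlt
      obtain ⟨t, ht1, ht2, ht3⟩ := ih (W ⊓ LinearMap.ker (ℓ i)) (by omega)
        (fun v hv => h v hv.1)
      refine ⟨insert i t, Finset.insert_subset hi ht1,
        (Finset.card_insert_le _ _).trans (by omega), fun v hv hall => ?_⟩
      exact ht3 v ⟨hv, LinearMap.mem_ker.2 (hall i (Finset.mem_insert_self _ _))⟩
        fun j hj => hall j (Finset.mem_insert_of_mem hj)

/-- The functional of a power series `g` on the coefficients of index less than `r`. -/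
noncomputable def lowFun (r : ℕ) (g : PowerSeries ℂ) : (Fin r → ℂ) →ₗ[ℂ] ℂ :=
  ∑ k : Fin r, (PowerSeries.coeff (r - (k : ℕ)) g) • LinearMap.proj k

theorem lowFun_apply (r : ℕ) (g P : PowerSeries ℂ) :
    PowerSeries.coeff r (P * g) = PowerSeries.coeff r P * PowerSeries.coeff 0 g +
      lowFun r g fun k => PowerSeries.coeff (k : ℕ) P := by
  rw [PowerSeries.coeff_mul, Finset.Nat.sum_antidiagonal_eq_sum_range_succ
    (fun i j => PowerSeries.coeff i P * PowerSeries.coeff j g), Finset.sum_range_succ,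
    Nat.sub_self, add_comm, Finset.sum_range]
  congr 1
  unfold lowFun
  rw [LinearMap.sum_apply]
  refine Finset.sum_congr rfl fun k _ => ?_
  rw [LinearMap.smul_apply, LinearMap.proj_apply, smul_eq_mul, mul_comm]

theorem series_uni {G : PowerSeries ℂ} (hG : PowerSeries.coeff 0 G = 1) {A : ℕ → ℝ}
    (hA : ∀ i, 0 < A i) {f : ℕ → PowerSeries ℂ}
    (hf : ∀ i, W92892c.IsType G ((-Real.log (A i) : ℝ) : ℂ) (f i)) (r : ℕ)
    {I J : Finset ℕ} (hI : r ^ 2 < (I.image A).card) (hJ : (r + 1) ^ 2 < (J.image A).card) :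
    ∃ Q : Finset (ℕ × ℕ), Q ⊆ I ×ˢ J ∧ Q.card ≤ r ∧ ∀ P : PowerSeries ℂ,
      (∀ q ∈ Q, PowerSeries.coeff r (P * (f q.1 * f q.2)) = PowerSeries.coeff r P) →
        ∀ i < r, PowerSeries.coeff i P = 0 := by
  classical
  have h0 : ∀ i j, PowerSeries.coeff 0 (f i * f j) = 1 := by
    intro i j
    rw [PowerSeries.coeff_zero_eq_constantCoeff_apply, map_mul,
      ← PowerSeries.coeff_zero_eq_constantCoeff_apply,
      ← PowerSeries.coeff_zero_eq_constantCoeff_apply, W92892c.IsType.coeff_zero hG (hf i),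
      W92892c.IsType.coeff_zero hG (hf j), mul_one]
  have hlow : ∀ (i j : ℕ) (P : PowerSeries ℂ),
      PowerSeries.coeff r (P * (f i * f j)) = PowerSeries.coeff r P ↔
        lowFun r (f i * f j) (fun k => PowerSeries.coeff (k : ℕ) P) = 0 := by
    intro i j P
    rw [lowFun_apply, h0, mul_one, add_eq_left]
  obtain ⟨Q, hQ1, hQ2, hQ3⟩ := select (fun q : ℕ × ℕ => lowFun r (f q.1 * f q.2)) (I ×ˢ J) r
    (⊤ : Submodule ℂ (Fin r → ℂ)) (by simp) (by
      intro v _ hv
      have h1 := (series_fin hG hA hf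
        (PowerSeries.mk fun k => if h : k < r then v ⟨k, h⟩ else 0) r hI hJ).2 (by
          intro i hi
          refine ⟨PowerSeries.coeff r (PowerSeries.mk fun k => if h : k < r then v ⟨k, h⟩ else 0),
            fun j hj => ?_⟩
          rw [hlow]
          have h2 : (fun k : Fin r => PowerSeries.coeff (k : ℕ)
              (PowerSeries.mk fun k => if h : k < r then v ⟨k, h⟩ else 0)) = v := by
            funext k
            rw [PowerSeries.coeff_mk, dif_pos k.2]
          rw [h2]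
          exact hv (i, j) (Finset.mem_product.2 ⟨hi, hj⟩))
      funext k
      have h3 := h1 (k : ℕ) k.2
      rw [PowerSeries.coeff_mk, dif_pos k.2] at h3
      exact h3)
  refine ⟨Q, hQ1, hQ2, fun P hP i hi => ?_⟩
  have h4 := hQ3 (fun k : Fin r => PowerSeries.coeff (k : ℕ) P) Submodule.mem_top
    fun q hq => (hlow q.1 q.2 P).1 (hP q hq)
  exact congrFun h4 ⟨i, hi⟩

/-- **At most `r` pairs, depending only on the known functions and on `r`, suffice.** -/
theorem tf_uni {γ : ℂ → ℂ} {B : ℕ → ℂ → ℂ} {A : ℕ → ℝ} {m : ℕ → ℕ} {b : ℕ → ℂ}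
    (h : Fam γ B A m b) (r : ℕ) {I J : Finset ℕ}
    (hI : r ^ 2 < (I.image A).card) (hJ : (r + 1) ^ 2 < (J.image A).card) :
    ∃ Q : Finset (ℕ × ℕ), Q ⊆ I ×ˢ J ∧ Q.card ≤ r ∧ ∀ L : ℂ → ℂ, AnalyticAt ℂ L 1 →
      ((∀ i < r, iteratedDeriv i L 1 = 0) ↔
        ∀ q ∈ Q, TP L r B m b q.1 q.2 = iteratedDeriv r L 1 / (r.factorial : ℂ)) := by
  obtain ⟨G, hG, f, hf1, hf2⟩ := fam_series h
  obtain ⟨Q, hQ1, hQ2, hQ3⟩ := series_uni hG h.pos hf1 r hI hJ
  refine ⟨Q, hQ1, hQ2, fun L hL => ⟨fun hr q _ => TP_const h hL hr _ _, fun hq i hi => ?_⟩⟩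
  have h1 := hQ3 (MQV.tay L) (fun q hqQ => by
    rw [← TP_eq h hf2 hL, MQV.coeff_tay]
    exact hq q hqQ) i hi
  rw [MQV.coeff_tay] at h1
  have h3 : (i.factorial : ℂ) ≠ 0 := by exact_mod_cast i.factorial_ne_zero
  exact (div_eq_zero_iff.1 h1).resolve_right h3

end TF14
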