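import Pool.Agent.W_92892c_v15.AnaX
import Pool.Agent.W_92892c_h28.Core

/-!
Products of `L` with known functions (MP_92892c_nt, team THREE FACTORS): from the analytic data to
the power series (helper28).
-/

namespace TF14

open Finset Filter PowerSeries Topology

/-- Functional equation near the point `1`: `Λ(1 - w) = ε Λ(1 + w)`, `Λ(s) = A^s γ(s) L(s)`. -/
def FunEqNear (γ L : ℂ → ℂ) (A : ℝ) : Prop :=
  ∃ ε : ℂ, ∀ᶠ w in 𝓝 (0 : ℂ), (A : ℂ) ^ (1 - w) * γ (1 - w) * L (1 - w) =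
    ε * ((A : ℂ) ^ (1 + w) * γ (1 + w) * L (1 + w))

/-- Known functions `B n`, analytic at `1`, of order `m n` and with leading coefficient `b n` at
`1`, with functional equations with one factor `γ` and with numbers `A n → ∞`. -/
structure Fam (γ : ℂ → ℂ) (B : ℕ → ℂ → ℂ) (A : ℕ → ℝ) (m : ℕ → ℕ) (b : ℕ → ℂ) : Prop where
  gamma_an : AnalyticAt ℂ γ 1
  gamma_ne : γ 1 ≠ 0
  an : ∀ n, AnalyticAt ℂ (B n) 1
  pos : ∀ n, 0 < A n
  fe : ∀ n, FunEqNear γ (B n) (A n)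
  top : Tendsto A atTop atTop
  ord : ∀ n, ∀ i < m n, iteratedDeriv i (B n) 1 = 0
  lead : ∀ n, iteratedDeriv (m n) (B n) 1 / ((m n).factorial : ℂ) = b n
  ne : ∀ n, b n ≠ 0

/-- The quotient of the two sides of the leading-term formula for `L ∏_{n ∈ S} B_n`, without the
constant of `L`. -/
noncomputable def TS (L : ℂ → ℂ) (r : ℕ) (B : ℕ → ℂ → ℂ) (m : ℕ → ℕ) (b : ℕ → ℂ) (S : Finset ℕ) :
    ℂ :=
  iteratedDeriv (r + ∑ n ∈ S, m n) (fun s => L s * ∏ n ∈ S, B n s) 1 /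
    ((r + ∑ n ∈ S, m n).factorial : ℂ) / ∏ n ∈ S, b n

lemma isType_zero {G : PowerSeries ℂ} (hG : coeff 0 G = 1) {x : ℂ} {F : PowerSeries ℂ}
    (h : W92892c.IsType G x F) : coeff 0 F = 1 := by
  obtain ⟨E, -, hE, rfl⟩ := h
  rw [coeff_zero_eq_constantCoeff_apply] at hG hE ⊢
  rw [map_mul, map_mul, hG, hE, mul_one, mul_one, ← coeff_zero_eq_constantCoeff_apply,
    coeff_rescale, coeff_exp]
  simp

/-- The power series of the known functions. -/
theorem fam_series {γ : ℂ → ℂ} {B : ℕ → ℂ → ℂ} {A : ℕ → ℝ} {m : ℕ → ℕ} {b : ℕ → ℂ}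
    (h : Fam γ B A m b) : ∃ G : PowerSeries ℂ, coeff 0 G = 1 ∧ ∃ f : ℕ → PowerSeries ℂ,
      (∀ n, W92892c.IsType G ((-Real.log (A n) : ℝ) : ℂ) (f n)) ∧
      ∀ n, MQV.tay (B n) = PowerSeries.C (b n) * (X ^ m n * f n) := by
  have hR : coeff 0 (PowerSeries.C (γ 1)⁻¹ * MQV.tay γ) = 1 := by
    rw [coeff_C_mul, MQV.coeff_tay]
    simp [h.gamma_ne]
  have hRi : coeff 0 (PowerSeries.C (γ 1)⁻¹ * MQV.tay γ)⁻¹ = 1 := by
    rw [coeff_zero_eq_constantCoeff_apply, constantCoeff_inv,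
      ← coeff_zero_eq_constantCoeff_apply, hR, inv_one]
  have key : ∀ n, ∃ f : PowerSeries ℂ,
      W92892c.IsType (PowerSeries.C (γ 1)⁻¹ * MQV.tay γ)⁻¹ ((-Real.log (A n) : ℝ) : ℂ) f ∧
      MQV.tay (B n) = PowerSeries.C (b n) * (X ^ m n * f) := by
    intro n
    obtain ⟨m', k, F, h1, h2, h3, h4, h5⟩ := MQV.normal_form (h.pos n) h.gamma_an h.gamma_ne
      (h.an n) (h.fe n) (h.ne n) (r := m n) (by rw [MQV.coeff_tay]; exact h.lead n)
    have hk : k = 0 := by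
      by_contra hk
      have h6 : m' < m n := by omega
      have h7 : coeff m' (MQV.tay (B n)) = 0 := by
        rw [MQV.coeff_tay, h.ord n m' h6, zero_div]
      rw [h2, coeff_C_mul, coeff_X_pow_mul', if_pos le_rfl, Nat.sub_self] at h7
      exact mul_ne_zero (h.ne n) h4 h7
    subst hk
    rw [add_zero] at h1
    rw [← h1] at h2
    refine ⟨F, ?_, h2⟩
    have h8 := W92892c.isType_normal hR h5 h4
    rwa [h3, inv_one, map_one, one_mul] at h8
  choose f hf using key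
  exact ⟨_, hRi, f, fun n => (hf n).1, fun n => (hf n).2⟩

lemma analyticAt_prodN {S : Finset ℕ} {B : ℕ → ℂ → ℂ} (hB : ∀ n, AnalyticAt ℂ (B n) 1) :
    AnalyticAt ℂ (fun s => ∏ n ∈ S, B n s) 1 := by
  classical
  induction S using Finset.induction_on with
  | empty =>
    simp only [Finset.prod_empty]
    exact analyticAt_const
  | insert a s ha ih =>
    simp only [Finset.prod_insert ha]
    exact (hB a).fun_mul ih

lemma tay_prodN {S : Finset ℕ} {B : ℕ → ℂ → ℂ} (hB : ∀ n, AnalyticAt ℂ (B n) 1) :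
    MQV.tay (fun s => ∏ n ∈ S, B n s) = ∏ n ∈ S, MQV.tay (B n) := by
  classical
  induction S using Finset.induction_on with
  | empty =>
    simp only [Finset.prod_empty]
    exact MQV.tay_one
  | insert a s ha ih =>
    simp only [Finset.prod_insert ha]
    rw [MQV.tay_mul (hB a) (analyticAt_prodN hB), ih]

/-- The quotients are coefficients of products of the power series. -/
theorem TS_eq {γ : ℂ → ℂ} {B : ℕ → ℂ → ℂ} {A : ℕ → ℝ} {m : ℕ → ℕ} {b : ℕ → ℂ}
    (h : Fam γ B A m b) {f : ℕ → PowerSeries ℂ}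
    (hf : ∀ n, MQV.tay (B n) = PowerSeries.C (b n) * (X ^ m n * f n)) {L : ℂ → ℂ}
    (hL : AnalyticAt ℂ L 1) (r : ℕ) (S : Finset ℕ) :
    TS L r B m b S = coeff r (MQV.tay L * ∏ n ∈ S, f n) := by
  unfold TS
  rw [← MQV.coeff_tay, MQV.tay_mul hL (analyticAt_prodN h.an), tay_prodN h.an]
  have h2 : ∏ n ∈ S, MQV.tay (B n) = PowerSeries.C (∏ n ∈ S, b n) *
      (X ^ (∑ n ∈ S, m n) * ∏ n ∈ S, f n) := by
    rw [map_prod, ← Finset.prod_pow_eq_pow_sum, ← Finset.prod_mul_distrib,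
      ← Finset.prod_mul_distrib]
    exact Finset.prod_congr rfl fun n _ => hf n
  have h4 : ∏ n ∈ S, b n ≠ 0 := Finset.prod_ne_zero_iff.2 fun n _ => h.ne n
  have h5 : MQV.tay L * (PowerSeries.C (∏ n ∈ S, b n) * (X ^ (∑ n ∈ S, m n) * ∏ n ∈ S, f n)) =
      PowerSeries.C (∏ n ∈ S, b n) * (X ^ (∑ n ∈ S, m n) * (MQV.tay L * ∏ n ∈ S, f n)) := by
    ring
  rw [h2, h5, coeff_C_mul, coeff_X_pow_mul', if_pos (Nat.le_add_left _ _),
    Nat.add_sub_cancel_right, mul_div_cancel_left₀ _ h4]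

/-- The Taylor series of a function with a nonzero derivative of order `< r`. -/
lemma tay_low {L : ℂ → ℂ} {r : ℕ} (h : ¬ ∀ i < r, iteratedDeriv i L 1 = 0) :
    ∃ (o : ℕ) (u : PowerSeries ℂ), o < r ∧ MQV.tay L = X ^ o * u ∧ coeff 0 u ≠ 0 := by
  classical
  have hex : ∃ i, i < r ∧ iteratedDeriv i L 1 ≠ 0 := by
    push Not at h
    exact h
  have h1 : ∃ i, iteratedDeriv i L 1 ≠ 0 := by
    obtain ⟨i, -, hi⟩ := hex
    exact ⟨i, hi⟩
  obtain ⟨o, ho, hmin⟩ : ∃ o, iteratedDeriv o L 1 ≠ 0 ∧ ∀ i < o, iteratedDeriv i L 1 = 0 :=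
    ⟨Nat.find h1, Nat.find_spec h1, fun i hi => not_not.1 (Nat.find_min h1 hi)⟩
  have hor : o < r := by
    obtain ⟨i, hi, hi2⟩ := hex
    by_contra hc
    exact hi2 (hmin i (by omega))
  obtain ⟨u, hu⟩ : X ^ o ∣ MQV.tay L := by
    rw [X_pow_dvd_iff]
    intro i hi
    rw [MQV.coeff_tay, hmin i hi, zero_div]
  refine ⟨o, u, hor, hu, fun h0 => ho ?_⟩
  have h2 : coeff o (MQV.tay L) = 0 := by
    rw [hu, coeff_X_pow_mul', if_pos le_rfl, Nat.sub_self, h0]
  rw [MQV.coeff_tay] at h2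
  have h3 : (o.factorial : ℂ) ≠ 0 := by exact_mod_cast o.factorial_ne_zero
  exact (div_eq_zero_iff.1 h2).resolve_right h3

/-- If the order is at least `r`, then all the quotients are equal. -/
theorem TS_const {γ : ℂ → ℂ} {B : ℕ → ℂ → ℂ} {A : ℕ → ℝ} {m : ℕ → ℕ} {b : ℕ → ℂ}
    (h : Fam γ B A m b) {L : ℂ → ℂ} (hL : AnalyticAt ℂ L 1) {r : ℕ}
    (hr : ∀ i < r, iteratedDeriv i L 1 = 0) (S : Finset ℕ) :
    TS L r B m b S = iteratedDeriv r L 1 / (r.factorial : ℂ) := by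
  obtain ⟨G, hG, f, hf1, hf2⟩ := fam_series h
  rw [TS_eq h hf2 hL, ← MQV.coeff_tay]
  obtain ⟨u, hu⟩ : X ^ r ∣ MQV.tay L := by
    rw [X_pow_dvd_iff]
    intro i hi
    rw [MQV.coeff_tay, hr i hi, zero_div]
  have h1 : constantCoeff (∏ n ∈ S, f n) = 1 := by
    rw [map_prod]
    refine Finset.prod_eq_one fun n _ => ?_
    rw [← coeff_zero_eq_constantCoeff_apply]
    exact isType_zero hG (hf1 n)
  rw [hu, mul_assoc, coeff_X_pow_mul', coeff_X_pow_mul', if_pos le_rfl, if_pos le_rfl,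
    Nat.sub_self, coeff_zero_eq_constantCoeff_apply, map_mul, h1, mul_one,
    coeff_zero_eq_constantCoeff_apply]

/-- The core of the team, as a statement. -/
def CoreTF : Prop := ∀ {G : PowerSeries ℂ}, coeff 0 G = 1 → ∀ {x : ℕ → ℂ},
  Tendsto (fun i => ‖x i‖) atTop atTop → ∀ {f : ℕ → PowerSeries ℂ},
  (∀ i, W92892c.IsType G (x i) (f i)) → ∀ {F : PowerSeries ℂ}, coeff 0 F ≠ 0 → ∀ {k : ℕ},
  (∀ m, Tendsto (fun i => (x i)⁻¹ * coeff k (F * f m * f i)) atTop (𝓝 0)) → k = 0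

/-- **The order of vanishing from the products with pairs of known functions.** -/
theorem tf_of_core (hcore : CoreTF) {γ : ℂ → ℂ} {B : ℕ → ℂ → ℂ} {A : ℕ → ℝ} {m : ℕ → ℕ}
    {b : ℕ → ℂ} (h : Fam γ B A m b) {L : ℂ → ℂ} (hL : AnalyticAt ℂ L 1) (r : ℕ) :
    (∀ i < r, iteratedDeriv i L 1 = 0) ↔
      ∀ j, Tendsto (fun n => TS L r B m b {j, n} / (Real.log (A n) : ℂ)) atTop (𝓝 0) := by
  have hlog : Tendsto (fun n => Real.log (A n)) atTop atTop := Real.tendsto_log_atTop.comp h.top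
  constructor
  · intro hr j
    have h1 : ∀ n, TS L r B m b {j, n} = iteratedDeriv r L 1 / (r.factorial : ℂ) :=
      fun n => TS_const h hL hr _
    simp only [h1]
    have h2 : Tendsto (fun n => ((Real.log (A n))⁻¹ : ℝ)) atTop (𝓝 0) :=
      tendsto_inv_atTop_zero.comp hlog
    have h3 : Tendsto (fun n => iteratedDeriv r L 1 / (r.factorial : ℂ) *
        (((Real.log (A n))⁻¹ : ℝ) : ℂ)) atTop
        (𝓝 (iteratedDeriv r L 1 / (r.factorial : ℂ) * ((0 : ℝ) : ℂ))) :=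
      ((Complex.continuous_ofReal.tendsto 0).comp h2).const_mul _
    rw [Complex.ofReal_zero, mul_zero] at h3
    refine h3.congr fun n => ?_
    rw [Complex.ofReal_inv, div_eq_mul_inv (iteratedDeriv r L 1 / (r.factorial : ℂ))]
  · intro hT
    by_contra hr
    obtain ⟨o, u, hor, hu, hu0⟩ := tay_low hr
    obtain ⟨G, hG, f, hf1, hf2⟩ := fam_series h
    have hx : Tendsto (fun i => ‖((-Real.log (A i) : ℝ) : ℂ)‖) atTop atTop := by
      have h1 := tendsto_abs_atTop_atTop.comp hlog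
      refine h1.congr fun n => ?_
      simp only [Function.comp, Complex.norm_real, Real.norm_eq_abs, abs_neg]
    have h0 : r - o = 0 := by
      refine hcore hG hx hf1 hu0 fun j => ?_
      have h2 := (hT j).neg
      rw [neg_zero] at h2
      refine h2.congr' ?_
      filter_upwards [eventually_gt_atTop j] with n hn
      have hjn : j ≠ n := by omega
      rw [TS_eq h hf2 hL, Finset.prod_pair hjn, hu]
      have h3 : X ^ o * u * (f j * f n) = X ^ o * (u * f j * f n) := by ring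
      rw [h3, coeff_X_pow_mul', if_pos hor.le]
      push_cast
      rw [inv_neg, div_eq_mul_inv, mul_comm, neg_mul]
    omega

end TF14
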