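import Pool.Agent.W_92892c_TF14.End28

/-!
Products of `L` with two known functions (MP_92892c_nt, team THREE FACTORS): equivalent forms of the
leading-term formula (helper28).
-/

namespace TF14

open Finset Filter Topology

/-- The quotient of the two sides of the leading-term formula, read literally, for the product of
`L` (rank `r`, constant `c`) and the `B n`, `n ∈ S` (ranks `m n`, constants `b n`). -/
noncomputable def TQ (L : ℂ → ℂ) (r : ℕ) (c : ℂ) (B : ℕ → ℂ → ℂ) (m : ℕ → ℕ) (b : ℕ → ℂ)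
    (S : Finset ℕ) : ℂ :=
  iteratedDeriv (r + ∑ n ∈ S, m n) (fun s => L s * ∏ n ∈ S, B n s) 1 /
    ((r + ∑ n ∈ S, m n).factorial : ℂ) / (c * ∏ n ∈ S, b n)

lemma TQ_eq (L : ℂ → ℂ) (r : ℕ) (c : ℂ) (B : ℕ → ℂ → ℂ) (m : ℕ → ℕ) (b : ℕ → ℂ)
    (S : Finset ℕ) : TQ L r c B m b S = TS L r B m b S / c := by
  unfold TQ TS
  rw [div_div, div_div, div_div, mul_comm c, ← mul_assoc]

/-- **Equivalent forms of the leading-term formula for `L`.** -/
theorem tf_tfae {γ : ℂ → ℂ} {B : ℕ → ℂ → ℂ} {A : ℕ → ℝ} {m : ℕ → ℕ}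
    {b : ℕ → ℂ} (h : Fam γ B A m b) {L : ℂ → ℂ} (hL : AnalyticAt ℂ L 1) (r : ℕ) {c : ℂ}
    (hc : c ≠ 0) : List.TFAE [
      (∀ i < r, iteratedDeriv i L 1 = 0) ∧ iteratedDeriv r L 1 / (r.factorial : ℂ) = c,
      ∀ S : Finset ℕ, TQ L r c B m b S = 1,
      TQ L r c B m b ∅ = 1 ∧ ∀ j, ∃ K a : ℝ, a < 1 ∧ ∀ᶠ n in atTop,
        ‖TQ L r c B m b {j, n}‖ ≤ K * Real.log (A n) ^ a,
      TQ L r c B m b ∅ = 1 ∧ ∀ j, Tendsto (fun n => TQ L r c B m b {j, n} /
        (Real.log (A n) : ℂ)) atTop (𝓝 0)] := by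
  have hlog : Tendsto (fun n => Real.log (A n)) atTop atTop := Real.tendsto_log_atTop.comp h.top
  obtain ⟨t1, t2⟩ := tf h hL r
  tfae_have 1 → 2 := by
    rintro ⟨h1, h2⟩ S
    rw [TQ_eq, t2 h1 S, h2, div_self hc]
  tfae_have 2 → 3 := by
    intro h1
    refine ⟨h1 ∅, fun j => ⟨1, 0, one_pos, Eventually.of_forall fun n => ?_⟩⟩
    rw [h1, norm_one, Real.rpow_zero, mul_one]
  tfae_have 3 → 4 := by
    rintro ⟨h1, h2⟩
    refine ⟨h1, fun j => ?_⟩
    obtain ⟨K, a, ha, h3⟩ := h2 j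
    have h4 : Tendsto (fun n => K * Real.log (A n) ^ (-(1 - a))) atTop (𝓝 (K * 0)) :=
      ((tendsto_rpow_neg_atTop (by linarith : 0 < 1 - a)).comp hlog).const_mul K
    rw [mul_zero] at h4
    refine squeeze_zero_norm' ?_ h4
    filter_upwards [h3, hlog.eventually (eventually_gt_atTop 0)] with n hn h5
    rw [norm_div, Complex.norm_real, Real.norm_eq_abs, abs_of_pos h5, div_le_iff₀ h5, mul_assoc]
    have h6 : Real.log (A n) ^ (-(1 - a)) * Real.log (A n) = Real.log (A n) ^ a := by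
      nth_rewrite 2 [← Real.rpow_one (Real.log (A n))]
      rw [← Real.rpow_add h5]
      congr 1
      ring
    rw [h6]
    exact hn
  tfae_have 4 → 1 := by
    rintro ⟨h1, h2⟩
    have h3 : ∀ i < r, iteratedDeriv i L 1 = 0 := by
      refine t1.2 fun j => ?_
      have h4 := (h2 j).const_mul c
      rw [mul_zero] at h4
      refine h4.congr fun n => ?_
      rw [TQ_eq]
      field_simp
    refine ⟨h3, ?_⟩
    rw [TQ_eq, t2 h3 ∅, div_eq_one_iff_eq hc] at h1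
    exact h1
  tfae_finish

end TF14
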