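import Pool.Agent.W_92892c_h53.E3
import Pool.Agent.W_92892c_h28.RBound

/-!
Three factors: if the `k`-th coefficients of `F f_m f_n` are `o(x_n)` for every `m`, where the `f_n` are
of the form `e^{x_n z} G(z) E_n(z)` with even `E_n`, and `F(0) ≠ 0`, then `k = 0`.
-/

set_option autoImplicit false

namespace TF14

open Finset Filter Topology

/-- Functionals which are `o(x_i)` on the series `f_i`. -/
noncomputable def Lam (n : ℕ) (x : ℕ → ℂ) (f : ℕ → PowerSeries ℂ) :
    Submodule ℂ (Fin (n + 1) → ℂ) where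
  carrier := {φ | Tendsto (fun i => (x i)⁻¹ *
    ∑ l : Fin (n + 1), φ l * PowerSeries.coeff (l : ℕ) (f i)) atTop (𝓝 0)}
  zero_mem' := by
    simp
  add_mem' := by
    intro a b ha hb
    have h := ha.add hb
    rw [add_zero] at h
    refine h.congr fun i => ?_
    rw [← mul_add, ← Finset.sum_add_distrib]
    congr 1
    refine Finset.sum_congr rfl fun l _ => ?_
    simp only [Pi.add_apply]
    ring
  smul_mem' := by
    intro c a ha
    have h := ha.const_mul c
    rw [mul_zero] at h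
    refine h.congr fun i => ?_
    rw [mul_left_comm, Finset.mul_sum]
    congr 1
    refine Finset.sum_congr rfl fun l _ => ?_
    simp only [Pi.smul_apply, smul_eq_mul]
    ring

theorem mem_Lam {n : ℕ} {x : ℕ → ℂ} {f : ℕ → PowerSeries ℂ} {φ : Fin (n + 1) → ℂ} :
    φ ∈ Lam n x f ↔ Tendsto (fun i => (x i)⁻¹ *
      ∑ l : Fin (n + 1), φ l * PowerSeries.coeff (l : ℕ) (f i)) atTop (𝓝 0) := Iff.rfl

theorem finrank_Lam {n : ℕ} {G : PowerSeries ℂ} (hG : PowerSeries.coeff 0 G = 1) {x : ℕ → ℂ}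
    (hx : Tendsto (fun i => ‖x i‖) atTop atTop) {f : ℕ → PowerSeries ℂ}
    (hf : ∀ i, W92892c.IsType G (x i) (f i)) :
    Module.finrank ℂ (Lam n x f) ≤ n / 2 + 1 := by
  set g : Lam n x f →ₗ[ℂ] ℂ :=
    (LinearMap.proj (0 : Fin (n + 1)) : (Fin (n + 1) → ℂ) →ₗ[ℂ] ℂ).comp (Lam n x f).subtype with hg
  have h1 := LinearMap.finrank_range_add_finrank_ker g
  have h2 : Module.finrank ℂ (LinearMap.range g) ≤ 1 := by
    refine (Submodule.finrank_le _).trans ?_
    rw [Module.finrank_self]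
  have h3 : Module.finrank ℂ (LinearMap.ker g) ≤ n / 2 := by
    rw [(Submodule.equivMapOfInjective (Lam n x f).subtype (Subtype.val_injective)
      (LinearMap.ker g)).finrank_eq]
    refine W92892c.finrank_le_half_bounded hG hx hf n _ ?_ ?_
    · intro φ hφ
      obtain ⟨ψ, hψ, rfl⟩ := Submodule.mem_map.1 hφ
      exact LinearMap.mem_ker.1 hψ
    · intro φ hφ
      obtain ⟨ψ, -, rfl⟩ := Submodule.mem_map.1 hφ
      exact ψ.2
  omega

/-- A vector as a polynomial. -/
noncomputable def toPS (n : ℕ) (g : Fin (n + 1) → ℂ) : PowerSeries ℂ :=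
  PowerSeries.mk fun m => if h : m < n + 1 then g ⟨m, h⟩ else 0

theorem coeff_toPS {n : ℕ} (g : Fin (n + 1) → ℂ) {m : ℕ} (h : m < n + 1) :
    PowerSeries.coeff m (toPS n g) = g ⟨m, h⟩ := by
  rw [toPS, PowerSeries.coeff_mk, dif_pos h]

/-- The functional `f ↦ coeff n (F g f)`. -/
noncomputable def Psi (n : ℕ) (F : PowerSeries ℂ) : (Fin (n + 1) → ℂ) →ₗ[ℂ] (Fin (n + 1) → ℂ) where
  toFun g := fun l => PowerSeries.coeff (n - l) (F * toPS n g)
  map_add' := by
    intro a b
    ext l
    have h : toPS n (a + b) = toPS n a + toPS n b := by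
      ext m
      rw [map_add]
      simp only [toPS, PowerSeries.coeff_mk]
      split_ifs
      · rfl
      · rw [add_zero]
    simp only [Pi.add_apply]
    rw [h, mul_add, map_add]
  map_smul' := by
    intro c a
    ext l
    have h : toPS n (c • a) = c • toPS n a := by
      ext m
      rw [PowerSeries.coeff_smul]
      simp only [toPS, PowerSeries.coeff_mk]
      split_ifs
      · rfl
      · rw [smul_zero]
    simp only [Pi.smul_apply, RingHom.id_apply]
    rw [h, mul_smul_comm, PowerSeries.coeff_smul]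

theorem sum_Psi {n : ℕ} (F : PowerSeries ℂ) (g : Fin (n + 1) → ℂ) (f : PowerSeries ℂ) :
    ∑ l : Fin (n + 1), Psi n F g l * PowerSeries.coeff (l : ℕ) f =
      PowerSeries.coeff n (F * toPS n g * f) := by
  rw [mul_comm (F * toPS n g) f, PowerSeries.coeff_mul,
    Finset.Nat.sum_antidiagonal_eq_sum_range_succ
      (fun a b => PowerSeries.coeff a f * PowerSeries.coeff b (F * toPS n g)) n, Finset.sum_range]
  refine Finset.sum_congr rfl fun l _ => ?_
  rw [mul_comm]
  rfl

theorem Psi_injective {n : ℕ} {F : PowerSeries ℂ} (hF : PowerSeries.coeff 0 F ≠ 0) :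
    Function.Injective (Psi n F) := by
  rw [injective_iff_map_eq_zero]
  intro g hg
  have h1 : ∀ m ≤ n, PowerSeries.coeff m (F * toPS n g) = 0 := by
    intro m hm
    have h2 := congrFun hg ⟨n - m, by omega⟩
    have h3 : n - (n - m) = m := by omega
    have h4 : PowerSeries.coeff (n - (n - m)) (F * toPS n g) = 0 := h2
    rwa [h3] at h4
  have hF' : PowerSeries.constantCoeff F ≠ 0 := by
    rwa [← PowerSeries.coeff_zero_eq_constantCoeff_apply]
  ext l
  have h5 : PowerSeries.coeff (l : ℕ) (F⁻¹ * (F * toPS n g)) = PowerSeries.coeff (l : ℕ)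
      (F⁻¹ * 0) := by
    refine W92892cH53.coeff_mul_congr (n := (l : ℕ)) (fun _ _ => rfl) (fun m hm => ?_) _ le_rfl
    rw [h1 m (hm.trans (Nat.lt_succ_iff.1 l.2)), map_zero]
  rw [← mul_assoc, PowerSeries.inv_mul_cancel F hF', one_mul, mul_zero, map_zero,
    coeff_toPS g l.2] at h5
  exact h5

theorem core {G : PowerSeries ℂ} (hG : PowerSeries.coeff 0 G = 1) {x : ℕ → ℂ}
    (hx : Tendsto (fun i => ‖x i‖) atTop atTop) {f : ℕ → PowerSeries ℂ}
    (hf : ∀ i, W92892c.IsType G (x i) (f i)) {F : PowerSeries ℂ}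
    (hF : PowerSeries.coeff 0 F ≠ 0) {k : ℕ}
    (h : ∀ m, Tendsto (fun i => (x i)⁻¹ * PowerSeries.coeff k (F * f m * f i)) atTop (𝓝 0)) :
    k = 0 := by
  by_contra hk
  obtain ⟨n, rfl⟩ : ∃ n, k = n + 1 := ⟨k - 1, by omega⟩
  set U := (Lam (n + 1) x f).comap (Psi (n + 1) F) with hU
  have hfr : Module.finrank ℂ U ≤ (n + 1) / 2 + 1 := by
    rw [(Submodule.equivMapOfInjective (Psi (n + 1) F) (Psi_injective hF) U).finrank_eq]
    exact (Submodule.finrank_mono (Submodule.map_comap_le _ _)).trans (finrank_Lam hG hx hf)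
  have hx0 : Tendsto (fun i => (x i)⁻¹) atTop (𝓝 0) := by
    rw [tendsto_zero_iff_norm_tendsto_zero]
    simp only [norm_inv]
    exact tendsto_inv_atTop_zero.comp hx
  have hvec : ∀ m, W92892cH53.vec (n + 1) (f m) ∈ U := by
    intro m
    rw [hU, Submodule.mem_comap, mem_Lam]
    refine (h m).congr fun i => ?_
    rw [sum_Psi]
    congr 1
    refine W92892cH53.coeff_mul_congr (n := n + 1) (fun a ha => ?_) (fun _ _ => rfl) _ le_rfl
    refine W92892cH53.coeff_mul_congr (n := n + 1) (fun _ _ => rfl) (fun b hb => ?_) a ha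
    rw [coeff_toPS _ (by omega : b < n + 1 + 1)]
    rfl
  have hlast : (Pi.single (Fin.last (n + 1)) 1 : Fin (n + 1 + 1) → ℂ) ∈ U := by
    rw [hU, Submodule.mem_comap, mem_Lam]
    have h1 := hx0.mul_const (PowerSeries.coeff 0 F)
    rw [zero_mul] at h1
    refine h1.congr fun i => ?_
    rw [sum_Psi]
    have h2 : toPS (n + 1) (Pi.single (Fin.last (n + 1)) 1) = PowerSeries.X ^ (n + 1) := by
      ext m
      rw [PowerSeries.coeff_X_pow]
      simp only [toPS, PowerSeries.coeff_mk, Pi.single_apply, Fin.ext_iff, Fin.val_last]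
      by_cases hm : m < n + 1 + 1
      · rw [dif_pos hm]
      · rw [dif_neg hm, if_neg (by omega)]
    have h3 : PowerSeries.coeff 0 (F * f i) = PowerSeries.coeff 0 F := by
      rw [PowerSeries.coeff_zero_eq_constantCoeff_apply, map_mul,
        ← PowerSeries.coeff_zero_eq_constantCoeff_apply,
        ← PowerSeries.coeff_zero_eq_constantCoeff_apply, W92892c.IsType.coeff_zero hG (hf i),
        mul_one]
    rw [h2, mul_comm F, mul_assoc, PowerSeries.coeff_X_pow_mul', if_pos le_rfl, Nat.sub_self, h3]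
  -- truncation
  let π : (Fin (n + 1 + 1) → ℂ) →ₗ[ℂ] (Fin (n + 1) → ℂ) := LinearMap.funLeft ℂ ℂ Fin.castSucc
  have h1 := LinearMap.finrank_range_add_finrank_ker (π.comp U.subtype)
  have h2 : 1 ≤ Module.finrank ℂ (LinearMap.ker (π.comp U.subtype)) := by
    rw [Submodule.one_le_finrank_iff, Submodule.ne_bot_iff]
    refine ⟨⟨_, hlast⟩, ?_, ?_⟩
    · rw [LinearMap.mem_ker]
      ext l
      show (Pi.single (Fin.last (n + 1)) (1 : ℂ) : Fin (n + 1 + 1) → ℂ) (Fin.castSucc l) = 0
      rw [Pi.single_apply, if_neg (Fin.castSucc_lt_last l).ne]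
    · intro h3
      have h4 := congrArg (fun v : U => (v : Fin (n + 1 + 1) → ℂ) (Fin.last (n + 1))) h3
      simp at h4
  have h3 : n + 1 - n / 2 ≤ Module.finrank ℂ (LinearMap.range (π.comp U.subtype)) := by
    refine W92892cH53.finrank_ge hG _ x hx f hf fun i => ?_
    exact ⟨⟨_, hvec i⟩, rfl⟩
  omega

end TF14
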