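import Pool.Agent.W_92892c_TF14.Core
import Pool.Agent.W_92892c_h85.LemP

/-!
Three factors: the form with finitely many factors.
-/

set_option autoImplicit false

namespace TF14

open Finset Filter Topology

theorem Psi_vec {n : ℕ} (F f g : PowerSeries ℂ) :
    ∑ l : Fin (n + 1), Psi n F (W92892cH53.vec n f) l * PowerSeries.coeff (l : ℕ) g =
      PowerSeries.coeff n (F * f * g) := by
  rw [sum_Psi]
  refine W92892cH53.coeff_mul_congr (n := n) (fun a ha => ?_) (fun _ _ => rfl) _ le_rfl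
  refine W92892cH53.coeff_mul_congr (n := n) (fun _ _ => rfl) (fun b hb => ?_) a ha
  rw [coeff_toPS _ (by omega : b < n + 1)]
  rfl

theorem Psi_last {n : ℕ} (F g : PowerSeries ℂ) (hg : PowerSeries.coeff 0 g = 1) :
    ∑ l : Fin (n + 1), Psi n F (Pi.single (Fin.last n) 1) l * PowerSeries.coeff (l : ℕ) g =
      PowerSeries.coeff 0 F := by
  rw [sum_Psi]
  have h2 : toPS n (Pi.single (Fin.last n) 1) = PowerSeries.X ^ n := by
    ext m
    rw [PowerSeries.coeff_X_pow]
    simp only [toPS, PowerSeries.coeff_mk, Pi.single_apply, Fin.ext_iff, Fin.val_last]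
    by_cases hm : m < n + 1
    · rw [dif_pos hm]
    · rw [dif_neg hm, if_neg (by omega)]
  have h3 : PowerSeries.coeff 0 (F * g) = PowerSeries.coeff 0 F := by
    rw [PowerSeries.coeff_zero_eq_constantCoeff_apply, map_mul,
      ← PowerSeries.coeff_zero_eq_constantCoeff_apply,
      ← PowerSeries.coeff_zero_eq_constantCoeff_apply, hg, mul_one]
  rw [h2, mul_comm F, mul_assoc, PowerSeries.coeff_X_pow_mul', if_pos le_rfl, Nat.sub_self, h3]

/-- The dimension count. -/
theorem core_gen {G : PowerSeries ℂ} (hG : PowerSeries.coeff 0 G = 1) {x : ℕ → ℂ}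
    {f : ℕ → PowerSeries ℂ} (hf : ∀ i, W92892c.IsType G (x i) (f i)) {I : Finset ℕ}
    {F : PowerSeries ℂ} (hF : PowerSeries.coeff 0 F ≠ 0) {n : ℕ}
    (Λ : Submodule ℂ (Fin (n + 1 + 1) → ℂ)) (hΛ : Module.finrank ℂ Λ ≤ (n + 1) / 2 + 1)
    (hI : (n + 1) ^ 2 < (I.image x).card)
    (hmem : ∀ i ∈ I, Psi (n + 1) F (W92892cH53.vec (n + 1) (f i)) ∈ Λ)
    (hlast : Psi (n + 1) F (Pi.single (Fin.last (n + 1)) 1) ∈ Λ) : False := by
  classical
  set U := Λ.comap (Psi (n + 1) F) with hU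
  have hfr : Module.finrank ℂ U ≤ (n + 1) / 2 + 1 := by
    rw [(Submodule.equivMapOfInjective (Psi (n + 1) F) (Psi_injective hF) U).finrank_eq]
    exact (Submodule.finrank_mono (Submodule.map_comap_le _ _)).trans hΛ
  let π : (Fin (n + 1 + 1) → ℂ) →ₗ[ℂ] (Fin (n + 1) → ℂ) := LinearMap.funLeft ℂ ℂ Fin.castSucc
  have h1 := LinearMap.finrank_range_add_finrank_ker (π.comp U.subtype)
  have h2 : 1 ≤ Module.finrank ℂ (LinearMap.ker (π.comp U.subtype)) := by
    rw [Submodule.one_le_finrank_iff, Submodule.ne_bot_iff]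
    refine ⟨⟨_, hlast⟩, ?_, ?_⟩
    · rw [LinearMap.mem_ker]
      ext l
      show (Pi.single (Fin.last (n + 1)) (1 : ℂ) : Fin (n + 1 + 1) → ℂ) (Fin.castSucc l) = 0
      rw [Pi.single_apply, if_neg (Fin.castSucc_lt_last l).ne]
    · intro h3
      have h4 := congrArg (fun v : U => (v : Fin (n + 1 + 1) → ℂ) (Fin.last (n + 1))) h3
      simp at h4
  have h3 : n + 1 - n / 2 ≤ Module.finrank ℂ (LinearMap.range (π.comp U.subtype)) := by
    let e := I.equivFin.symm
    have h4 := W92892cH85.span_ge hG n I.card (fun j => x (e j)) (fun j => f (e j))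
      (fun j => hf _) (by
        have h5 : Finset.univ.image (fun j : Fin I.card => x (e j)) = I.image x := by
          ext y
          simp only [Finset.mem_image, Finset.mem_univ, true_and]
          constructor
          · rintro ⟨j, rfl⟩
            exact ⟨_, (e j).2, rfl⟩
          · rintro ⟨i, hi, rfl⟩
            exact ⟨e.symm ⟨i, hi⟩, by rw [Equiv.apply_symm_apply]⟩
        rwa [h5])
    refine h4.trans (Submodule.finrank_mono ?_)
    rw [Submodule.span_le]
    rintro _ ⟨j, rfl⟩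
    exact ⟨⟨_, hmem _ (e j).2⟩, rfl⟩
  omega

/-- Functionals which are constant on the series `f_j`, `j ∈ J`. -/
noncomputable def LamJ (n : ℕ) (J : Finset ℕ) (f : ℕ → PowerSeries ℂ) :
    Submodule ℂ (Fin (n + 1) → ℂ) where
  carrier := {φ | ∃ s : ℂ, ∀ j ∈ J, ∑ l : Fin (n + 1), φ l * PowerSeries.coeff (l : ℕ) (f j) = s}
  zero_mem' := ⟨0, fun j _ => by simp⟩
  add_mem' := by
    rintro a b ⟨s, ha⟩ ⟨t, hb⟩
    refine ⟨s + t, fun j hj => ?_⟩
    rw [← ha j hj, ← hb j hj, ← Finset.sum_add_distrib]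
    refine Finset.sum_congr rfl fun l _ => ?_
    simp only [Pi.add_apply]
    ring
  smul_mem' := by
    rintro c a ⟨s, ha⟩
    refine ⟨c * s, fun j hj => ?_⟩
    rw [← ha j hj, Finset.mul_sum]
    refine Finset.sum_congr rfl fun l _ => ?_
    simp only [Pi.smul_apply, smul_eq_mul]
    ring

theorem finrank_LamJ {n : ℕ} {G : PowerSeries ℂ} (hG : PowerSeries.coeff 0 G = 1) {x : ℕ → ℂ}
    {f : ℕ → PowerSeries ℂ} (hf : ∀ i, W92892c.IsType G (x i) (f i)) {J : Finset ℕ}
    (hJ : (n + 1) ^ 2 < (J.image x).card) :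
    Module.finrank ℂ (LamJ n J f) ≤ n / 2 + 1 := by
  classical
  obtain ⟨y, hy⟩ : (J.image x).Nonempty := Finset.card_pos.1 (by omega)
  obtain ⟨j0, hj0, -⟩ := Finset.mem_image.1 hy
  let g0 : (Fin (n + 1) → ℂ) →ₗ[ℂ] ℂ :=
    { toFun := fun φ => ∑ l : Fin (n + 1), φ l * PowerSeries.coeff (l : ℕ) (f j0)
      map_add' := by
        intro a b
        rw [← Finset.sum_add_distrib]
        refine Finset.sum_congr rfl fun l _ => ?_
        simp only [Pi.add_apply]
        ring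
      map_smul' := by
        intro c a
        rw [RingHom.id_apply, smul_eq_mul, Finset.mul_sum]
        refine Finset.sum_congr rfl fun l _ => ?_
        simp only [Pi.smul_apply, smul_eq_mul]
        ring }
  have h1 := LinearMap.finrank_range_add_finrank_ker (g0.comp (LamJ n J f).subtype)
  have h2 : Module.finrank ℂ (LinearMap.range (g0.comp (LamJ n J f).subtype)) ≤ 1 := by
    refine (Submodule.finrank_le _).trans ?_
    rw [Module.finrank_self]
  have h3 : Module.finrank ℂ (LinearMap.ker (g0.comp (LamJ n J f).subtype)) ≤ n / 2 := by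
    rw [(Submodule.equivMapOfInjective (LamJ n J f).subtype (Subtype.val_injective)
      (LinearMap.ker (g0.comp (LamJ n J f).subtype))).finrank_eq]
    by_contra hlt
    push Not at hlt
    refine absurd (W92892cH85.lemP hG n _ hlt (J.image x) ?_) (not_le.2 hJ)
    intro y hy
    obtain ⟨j, hj, rfl⟩ := Finset.mem_image.1 hy
    refine ⟨f j, hf j, fun φ hφ => ?_⟩
    obtain ⟨ψ, hψ, rfl⟩ := Submodule.mem_map.1 hφ
    obtain ⟨s, hs⟩ := ψ.2
    have h5 : ∑ l : Fin (n + 1), (ψ : Fin (n + 1) → ℂ) l * PowerSeries.coeff (l : ℕ) (f j0) = 0 :=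
      LinearMap.mem_ker.1 hψ
    rw [hs j0 hj0] at h5
    show ∑ l : Fin (n + 1), (ψ : Fin (n + 1) → ℂ) l * PowerSeries.coeff (l : ℕ) (f j) = 0
    rw [hs j hj, h5]
  omega

/-- The finite exact form. -/
theorem core_fin {G : PowerSeries ℂ} (hG : PowerSeries.coeff 0 G = 1) {x : ℕ → ℂ}
    {f : ℕ → PowerSeries ℂ} (hf : ∀ i, W92892c.IsType G (x i) (f i)) {I J : Finset ℕ}
    {F : PowerSeries ℂ} (hF : PowerSeries.coeff 0 F ≠ 0) {k : ℕ}
    (hI : k ^ 2 < (I.image x).card) (hJ : (k + 1) ^ 2 < (J.image x).card)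
    (h : ∀ i ∈ I, ∃ s : ℂ, ∀ j ∈ J, PowerSeries.coeff k (F * f i * f j) = s) : k = 0 := by
  by_contra hk
  obtain ⟨n, rfl⟩ : ∃ n, k = n + 1 := ⟨k - 1, by omega⟩
  refine core_gen hG hf hF (LamJ (n + 1) J f) (finrank_LamJ hG hf hJ) hI ?_ ?_
  · intro i hi
    obtain ⟨s, hs⟩ := h i hi
    exact ⟨s, fun j hj => by rw [Psi_vec, hs j hj]⟩
  · exact ⟨PowerSeries.coeff 0 F, fun j _ => Psi_last F (f j) (W92892c.IsType.coeff_zero hG (hf j))⟩

/-- The asymptotic form with finitely many `i`. -/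
theorem core_asy {G : PowerSeries ℂ} (hG : PowerSeries.coeff 0 G = 1) {x : ℕ → ℂ}
    (hx : Tendsto (fun i => ‖x i‖) atTop atTop)
    {f : ℕ → PowerSeries ℂ} (hf : ∀ i, W92892c.IsType G (x i) (f i)) {I : Finset ℕ}
    {F : PowerSeries ℂ} (hF : PowerSeries.coeff 0 F ≠ 0) {k : ℕ}
    (hI : k ^ 2 < (I.image x).card)
    (h : ∀ i ∈ I, Tendsto (fun j => (x j)⁻¹ * PowerSeries.coeff k (F * f i * f j)) atTop (𝓝 0)) :
    k = 0 := by
  by_contra hk
  obtain ⟨n, rfl⟩ : ∃ n, k = n + 1 := ⟨k - 1, by omega⟩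
  have hx0 : Tendsto (fun i => (x i)⁻¹) atTop (𝓝 0) := by
    rw [tendsto_zero_iff_norm_tendsto_zero]
    simp only [norm_inv]
    exact tendsto_inv_atTop_zero.comp hx
  refine core_gen hG hf hF (Lam (n + 1) x f) (finrank_Lam hG hx hf) hI ?_ ?_
  · intro i hi
    rw [mem_Lam]
    refine (h i hi).congr fun j => ?_
    rw [Psi_vec]
  · rw [mem_Lam]
    have h1 := hx0.mul_const (PowerSeries.coeff 0 F)
    rw [zero_mul] at h1
    refine h1.congr fun j => ?_
    rw [Psi_last F (f j) (W92892c.IsType.coeff_zero hG (hf j))]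

end TF14
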