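import Pool.Agent.W_92892c_TF14.Ser2
import Pool.Agent.W_92892c_TF14.Cor28

/-!
Products of `L` with two known functions: the finite exact form (MP_92892c_nt, THREE FACTORS).
-/

set_option autoImplicit false

namespace TF14

open Finset Filter Topology

/-- The quotient of the two sides of the leading-term formula for `L B_i B_j`, without the
constant of `L`; `i = j` is allowed. -/
noncomputable def TP (L : ℂ → ℂ) (r : ℕ) (B : ℕ → ℂ → ℂ) (m : ℕ → ℕ) (b : ℕ → ℂ) (i j : ℕ) : ℂ :=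
  iteratedDeriv (r + m i + m j) (fun s => L s * B i s * B j s) 1 /
    ((r + m i + m j).factorial : ℂ) / (b i * b j)

/-- The quotients are coefficients of products of the power series. -/
theorem TP_eq {γ : ℂ → ℂ} {B : ℕ → ℂ → ℂ} {A : ℕ → ℝ} {m : ℕ → ℕ} {b : ℕ → ℂ}
    (h : Fam γ B A m b) {f : ℕ → PowerSeries ℂ}
    (hf : ∀ n, MQV.tay (B n) = PowerSeries.C (b n) * (PowerSeries.X ^ m n * f n)) {L : ℂ → ℂ}
    (hL : AnalyticAt ℂ L 1) (r : ℕ) (i j : ℕ) :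
    TP L r B m b i j = PowerSeries.coeff r (MQV.tay L * (f i * f j)) := by
  unfold TP
  rw [← MQV.coeff_tay, MQV.tay_mul (hL.fun_mul (h.an i)) (h.an j), MQV.tay_mul hL (h.an i), hf i,
    hf j]
  have h5 : MQV.tay L * (PowerSeries.C (b i) * (PowerSeries.X ^ m i * f i)) *
      (PowerSeries.C (b j) * (PowerSeries.X ^ m j * f j)) =
      PowerSeries.C (b i * b j) * (PowerSeries.X ^ (m i + m j) * (MQV.tay L * (f i * f j))) := by
    rw [map_mul, pow_add]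
    ring
  rw [h5, PowerSeries.coeff_C_mul, PowerSeries.coeff_X_pow_mul', if_pos (by omega),
    mul_div_cancel_left₀ _ (mul_ne_zero (h.ne i) (h.ne j))]
  congr 1
  congr 1
  omega

/-- **The finite exact form.** -/
theorem tf_fin {γ : ℂ → ℂ} {B : ℕ → ℂ → ℂ} {A : ℕ → ℝ} {m : ℕ → ℕ} {b : ℕ → ℂ}
    (h : Fam γ B A m b) {L : ℂ → ℂ} (hL : AnalyticAt ℂ L 1) (r : ℕ) {I J : Finset ℕ}
    (hI : r ^ 2 < (I.image A).card) (hJ : (r + 1) ^ 2 < (J.image A).card) :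
    ((∀ i < r, iteratedDeriv i L 1 = 0) ↔
      ∀ i ∈ I, ∃ s : ℂ, ∀ j ∈ J, TP L r B m b i j = s) := by
  obtain ⟨G, hG, f, hf1, hf2⟩ := fam_series h
  have h1 := series_fin hG h.pos hf1 (MQV.tay L) r hI hJ
  have h2 : ∀ i, PowerSeries.coeff i (MQV.tay L) = 0 ↔ iteratedDeriv i L 1 = 0 := by
    intro i
    rw [MQV.coeff_tay]
    have h3 : (i.factorial : ℂ) ≠ 0 := by exact_mod_cast i.factorial_ne_zero
    exact ⟨fun h0 => (div_eq_zero_iff.1 h0).resolve_right h3, fun h0 => by rw [h0, zero_div]⟩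
  simp only [h2] at h1
  rw [h1]
  simp only [TP_eq h hf2 hL]

/-- **The asymptotic form.** -/
theorem tf_asy {γ : ℂ → ℂ} {B : ℕ → ℂ → ℂ} {A : ℕ → ℝ} {m : ℕ → ℕ} {b : ℕ → ℂ}
    (h : Fam γ B A m b) {L : ℂ → ℂ} (hL : AnalyticAt ℂ L 1) (r : ℕ) {I : Finset ℕ}
    (hI : r ^ 2 < (I.image A).card) :
    ((∀ i < r, iteratedDeriv i L 1 = 0) ↔
      ∀ i ∈ I, Tendsto (fun n => TP L r B m b i n / (Real.log (A n) : ℂ)) atTop (𝓝 0)) := by
  obtain ⟨G, hG, f, hf1, hf2⟩ := fam_series h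
  have h1 := series_asy hG h.pos h.top hf1 (MQV.tay L) r hI
  have h2 : ∀ i, PowerSeries.coeff i (MQV.tay L) = 0 ↔ iteratedDeriv i L 1 = 0 := by
    intro i
    rw [MQV.coeff_tay]
    have h3 : (i.factorial : ℂ) ≠ 0 := by exact_mod_cast i.factorial_ne_zero
    exact ⟨fun h0 => (div_eq_zero_iff.1 h0).resolve_right h3, fun h0 => by rw [h0, zero_div]⟩
  simp only [h2] at h1
  rw [h1]
  simp only [TP_eq h hf2 hL]

/-- All the quotients agree if the order is at least `r`. -/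
theorem TP_const {γ : ℂ → ℂ} {B : ℕ → ℂ → ℂ} {A : ℕ → ℝ} {m : ℕ → ℕ} {b : ℕ → ℂ}
    (h : Fam γ B A m b) {L : ℂ → ℂ} (hL : AnalyticAt ℂ L 1) {r : ℕ}
    (hr : ∀ i < r, iteratedDeriv i L 1 = 0) (i j : ℕ) :
    TP L r B m b i j = iteratedDeriv r L 1 / (r.factorial : ℂ) := by
  obtain ⟨G, hG, f, hf1, hf2⟩ := fam_series h
  rw [TP_eq h hf2 hL, ← MQV.coeff_tay]
  exact series_const2 hG hf1 (fun k hk => by rw [MQV.coeff_tay, hr k hk, zero_div]) i j

end TF14
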