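import Pool.Agent.W_92892c_TF14.Core
import Pool.Agent.W_92892c_TF14.Brg28

/-!
Products of `L` with two known functions (MP_92892c_nt, team THREE FACTORS): the end theorems
(helper28).
-/

namespace TF14

open Finset Filter Topology

theorem coreTF : CoreTF := fun hG _ hx _ hf _ hF _ h => core hG hx hf hF h

/-- **The order of vanishing from the products with pairs of known functions.** -/
theorem tf {γ : ℂ → ℂ} {B : ℕ → ℂ → ℂ} {A : ℕ → ℝ} {m : ℕ → ℕ}
    {b : ℕ → ℂ} (h : Fam γ B A m b) {L : ℂ → ℂ} (hL : AnalyticAt ℂ L 1) (r : ℕ) :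
    ((∀ i < r, iteratedDeriv i L 1 = 0) ↔
      ∀ j, Tendsto (fun n => TS L r B m b {j, n} / (Real.log (A n) : ℂ)) atTop (𝓝 0)) ∧
    ((∀ i < r, iteratedDeriv i L 1 = 0) →
      ∀ S : Finset ℕ, TS L r B m b S = iteratedDeriv r L 1 / (r.factorial : ℂ)) :=
  ⟨tf_of_core coreTF h hL r, fun hr S => TS_const h hL hr S⟩

end TF14
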