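import Pool.Agent.W_92892c_TF14.Core

/-!
Three factors, in terms of power series.
-/

set_option autoImplicit false

namespace TF14

open Finset Filter Topology

theorem coeff_zero_prod {G : PowerSeries ℂ} (hG : PowerSeries.coeff 0 G = 1) {x : ℕ → ℂ}
    {f : ℕ → PowerSeries ℂ} (hf : ∀ i, W92892c.IsType G (x i) (f i)) (S : Finset ℕ) :
    PowerSeries.coeff 0 (∏ i ∈ S, f i) = 1 := by
  rw [PowerSeries.coeff_zero_eq_constantCoeff_apply, map_prod]
  refine Finset.prod_eq_one fun i _ => ?_
  rw [← PowerSeries.coeff_zero_eq_constantCoeff_apply, W92892c.IsType.coeff_zero hG (hf i)]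

theorem coeff_mul_of_lt {P Q : PowerSeries ℂ} {r : ℕ} (h : ∀ i < r, PowerSeries.coeff i P = 0) :
    PowerSeries.coeff r (P * Q) = PowerSeries.coeff r P * PowerSeries.coeff 0 Q := by
  rw [PowerSeries.coeff_mul, Finset.sum_eq_single (r, 0)]
  · rintro ⟨a, b⟩ hab hne
    rw [HasAntidiagonal.mem_antidiagonal] at hab
    simp only at hab ⊢
    have h1 : a < r := by
      rcases Nat.lt_or_ge a r with h2 | h2
      · exact h2
      · exfalso
        apply hne
        rw [Prod.mk.injEq]
        omega
    rw [h a h1, zero_mul]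
  · intro h1
    exact absurd (HasAntidiagonal.mem_antidiagonal.2 (add_zero r)) h1

theorem series_const {G : PowerSeries ℂ} (hG : PowerSeries.coeff 0 G = 1) {x : ℕ → ℂ}
    {f : ℕ → PowerSeries ℂ} (hf : ∀ i, W92892c.IsType G (x i) (f i)) {P : PowerSeries ℂ} {r : ℕ}
    (h : ∀ i < r, PowerSeries.coeff i P = 0) (S : Finset ℕ) :
    PowerSeries.coeff r (P * ∏ i ∈ S, f i) = PowerSeries.coeff r P := by
  rw [coeff_mul_of_lt h, coeff_zero_prod hG hf, mul_one]

theorem series_iff {G : PowerSeries ℂ} (hG : PowerSeries.coeff 0 G = 1) {A : ℕ → ℝ}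
    (hA : Tendsto A atTop atTop) {f : ℕ → PowerSeries ℂ}
    (hf : ∀ i, W92892c.IsType G ((-Real.log (A i) : ℝ) : ℂ) (f i)) (P : PowerSeries ℂ) (r : ℕ) :
    (∀ i < r, PowerSeries.coeff i P = 0) ↔
      ∀ j : ℕ, Tendsto (fun n => PowerSeries.coeff r (P * ∏ i ∈ ({j, n} : Finset ℕ), f i) /
        ((Real.log (A n) : ℝ) : ℂ)) atTop (𝓝 0) := by
  have hlog : Tendsto (fun n => Real.log (A n)) atTop atTop := Real.tendsto_log_atTop.comp hA
  have hnorm : Tendsto (fun n => ‖((-Real.log (A n) : ℝ) : ℂ)‖) atTop atTop := by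
    refine (tendsto_abs_atTop_atTop.comp hlog).congr fun n => ?_
    simp only [Function.comp, Complex.norm_real, Real.norm_eq_abs, abs_neg]
  constructor
  · intro h j
    have h1 : Tendsto (fun n => ((Real.log (A n) : ℝ) : ℂ)⁻¹) atTop (𝓝 0) := by
      rw [tendsto_zero_iff_norm_tendsto_zero]
      refine (tendsto_inv_atTop_zero.comp hnorm).congr fun n => ?_
      simp only [Function.comp, norm_inv, Complex.norm_real, Real.norm_eq_abs, abs_neg]
    have h2 := h1.const_mul (PowerSeries.coeff r P)
    rw [mul_zero] at h2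
    refine h2.congr fun n => ?_
    rw [series_const hG hf h, div_eq_mul_inv]
  · intro h
    by_contra hcon
    push Not at hcon
    obtain ⟨i0, hi0, hne⟩ := hcon
    have hP : P ≠ 0 := fun h0 => hne (by rw [h0, map_zero])
    obtain ⟨o, F, hPF, hF⟩ : ∃ (o : ℕ) (F : PowerSeries ℂ), P = PowerSeries.X ^ o * F ∧
        PowerSeries.coeff 0 F ≠ 0 := by
      classical
      have hex : ∃ i, PowerSeries.coeff i P ≠ 0 := ⟨i0, hne⟩
      have h1 : PowerSeries.X ^ (Nat.find hex) ∣ P := by
        rw [PowerSeries.X_pow_dvd_iff]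
        intro m hm
        have h2 := Nat.find_min hex hm
        push Not at h2
        exact h2
      obtain ⟨F, hF⟩ := h1
      refine ⟨Nat.find hex, F, hF, ?_⟩
      have h3 := Nat.find_spec hex
      intro h4
      apply h3
      have h5 : PowerSeries.coeff (Nat.find hex) P =
          PowerSeries.coeff (Nat.find hex) (PowerSeries.X ^ (Nat.find hex) * F) :=
        congrArg _ hF
      rw [h5, PowerSeries.coeff_X_pow_mul', if_pos le_rfl, Nat.sub_self, h4]
    have ho : o < r := by
      by_contra hle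
      push Not at hle
      apply hne
      rw [hPF, PowerSeries.coeff_X_pow_mul', if_neg (by omega)]
    have hk : r - o = 0 := by
      refine core hG hnorm hf hF (k := r - o) fun m => ?_
      have h1 := (h m).neg
      rw [neg_zero] at h1
      refine h1.congr' ?_
      filter_upwards [Filter.eventually_gt_atTop m] with n hn
      rw [Finset.prod_pair hn.ne, hPF, mul_assoc, PowerSeries.coeff_X_pow_mul', if_pos ho.le,
        mul_assoc F, div_eq_mul_inv]
      push_cast
      rw [inv_neg]
      ring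
    omega

end TF14
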