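import Pool.Agent.W_92892c_TF14.Cor28
import Pool.Agent.W_92892c_TF14.Ser

/-!
Products of `L` with two known functions (MP_92892c_nt, team THREE FACTORS): at most `r` pairs of
known functions decide, the same pairs for all `L` (helper28).
-/

namespace TF14

open Finset Filter PowerSeries Topology

/-- Finitely many functionals with the same common kernel. -/
theorem greedy {V : Type*} [AddCommGroup V] [Module ℂ V] [FiniteDimensional ℂ V] {ι : Type*}
    (φ : ι → V →ₗ[ℂ] ℂ) (k : ℕ) : ∀ W : Submodule ℂ V, Module.finrank ℂ W ≤ k →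
      (∀ w ∈ W, (∀ i, φ i w = 0) → w = 0) →
      ∃ s : Finset ι, s.card ≤ k ∧ ∀ w ∈ W, (∀ i ∈ s, φ i w = 0) → w = 0 := by
  classical
  induction k with
  | zero =>
    intro W hW _
    have hbot : W = ⊥ := Submodule.finrank_eq_zero.1 (Nat.le_zero.1 hW)
    refine ⟨∅, le_rfl, fun w hw _ => ?_⟩
    rw [hbot] at hw
    exact (Submodule.mem_bot ℂ).1 hw
  | succ k ih =>
    intro W hW hker
    by_cases hbot : W = ⊥
    · refine ⟨∅, Nat.zero_le _, fun w hw _ => ?_⟩
      rw [hbot] at hw
      exact (Submodule.mem_bot ℂ).1 hw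
    · obtain ⟨w0, hw0, hne⟩ := Submodule.exists_mem_ne_zero_of_ne_bot hbot
      have hex : ∃ i, φ i w0 ≠ 0 := by
        by_contra hcon
        push Not at hcon
        exact hne (hker w0 hw0 hcon)
      obtain ⟨i, hi⟩ := hex
      have hlt : W ⊓ LinearMap.ker (φ i) < W := by
        refine lt_of_le_of_ne inf_le_left fun heq => hi ?_
        have h1 : w0 ∈ W ⊓ LinearMap.ker (φ i) := by
          rw [heq]
          exact hw0
        exact LinearMap.mem_ker.1 h1.2
      have hfr := Submodule.finrank_lt_finrank_of_lt hlt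
      obtain ⟨s, hs, hs2⟩ := ih (W ⊓ LinearMap.ker (φ i)) (by omega) fun w hw h => hker w hw.1 h
      refine ⟨insert i s, (Finset.card_insert_le _ _).trans (by omega), fun w hw h => ?_⟩
      exact hs2 w ⟨hw, LinearMap.mem_ker.2 (h i (Finset.mem_insert_self _ _))⟩
        fun j hj => h j (Finset.mem_insert_of_mem hj)

/-- The functional `P ↦ coeff r (P g) - coeff r P` on the coefficients below `r`. -/
noncomputable def low (r : ℕ) (g : PowerSeries ℂ) : (Fin r → ℂ) →ₗ[ℂ] ℂ where
  toFun l := ∑ i : Fin r, l i * coeff (r - i) g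
  map_add' := by
    intro a b
    rw [← Finset.sum_add_distrib]
    exact Finset.sum_congr rfl fun i _ => by rw [Pi.add_apply, add_mul]
  map_smul' := by
    intro c a
    rw [RingHom.id_apply, smul_eq_mul, Finset.mul_sum]
    exact Finset.sum_congr rfl fun i _ => by rw [Pi.smul_apply, smul_eq_mul, mul_assoc]

lemma low_eq (r : ℕ) (P g : PowerSeries ℂ) (hg : coeff 0 g = 1) :
    coeff r (P * g) = low r g (fun i => coeff (i : ℕ) P) + coeff r P := by
  rw [coeff_mul, Finset.Nat.sum_antidiagonal_eq_sum_range_succ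
    (fun a b => coeff a P * coeff b g) r, Finset.sum_range_succ, Nat.sub_self, hg, mul_one,
    Finset.sum_range]
  rfl

/-- **At most `r` pairs of known functions decide, the same pairs for all `L`.** -/
theorem tf_finite {γ : ℂ → ℂ} {B : ℕ → ℂ → ℂ} {A : ℕ → ℝ} {m : ℕ → ℕ}
    {b : ℕ → ℂ} (h : Fam γ B A m b) (r : ℕ) :
    ∃ P : Finset (Finset ℕ), P.card ≤ r ∧ (∀ S ∈ P, S.card = 2) ∧
      ∀ L : ℂ → ℂ, AnalyticAt ℂ L 1 →
        ((∀ i < r, iteratedDeriv i L 1 = 0) ↔
          ∀ S ∈ P, TS L r B m b S = TS L r B m b ∅) ∧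
        ∀ c : ℂ, c ≠ 0 →
          ((∀ i < r, iteratedDeriv i L 1 = 0) ∧ iteratedDeriv r L 1 / (r.factorial : ℂ) = c ↔
            TQ L r c B m b ∅ = 1 ∧ ∀ S ∈ P, TQ L r c B m b S = 1) := by
  classical
  obtain ⟨G, hG, f, hf1, hf2⟩ := fam_series h
  have hone : ∀ S : Finset ℕ, coeff 0 (∏ n ∈ S, f n) = 1 := fun S => coeff_zero_prod hG hf1 S
  have hker : ∀ w ∈ (⊤ : Submodule ℂ (Fin r → ℂ)), (∀ S : {S : Finset ℕ // S.card = 2},
      low r (∏ n ∈ S.1, f n) w = 0) → w = 0 := by
    intro w _ hw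
    obtain ⟨P, hPdef⟩ : ∃ P : PowerSeries ℂ, P = PowerSeries.mk fun i =>
      if hi : i < r then w ⟨i, hi⟩ else 0 := ⟨_, rfl⟩
    have hP : ∀ i : Fin r, coeff (i : ℕ) P = w i := by
      intro i
      rw [hPdef, coeff_mk, dif_pos i.2]
    have hPr : coeff r P = 0 := by
      rw [hPdef, coeff_mk, dif_neg (lt_irrefl r)]
    have h1 : ∀ i < r, coeff i P = 0 := by
      refine (series_iff hG h.top hf1 P r).2 fun j => ?_
      refine tendsto_const_nhds.congr' ?_
      filter_upwards [eventually_gt_atTop j] with n hn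
      have hcard : ({j, n} : Finset ℕ).card = 2 := Finset.card_pair hn.ne
      have h2 : (fun i : Fin r => coeff (i : ℕ) P) = w := funext hP
      have h3 : low r (∏ n ∈ ({j, n} : Finset ℕ), f n) w = 0 := hw ⟨{j, n}, hcard⟩
      rw [low_eq r P _ (hone _), hPr, add_zero, h2, h3, zero_div]
    funext i
    rw [← hP i, h1 i i.2]
    rfl
  obtain ⟨s, hs, hs2⟩ := greedy (fun S : {S : Finset ℕ // S.card = 2} => low r (∏ n ∈ S.1, f n))
    r ⊤ (by rw [finrank_top, Module.finrank_fin_fun]) hker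
  have key : ∀ L : ℂ → ℂ, AnalyticAt ℂ L 1 → ((∀ i < r, iteratedDeriv i L 1 = 0) ↔
      ∀ S ∈ s.image Subtype.val, TS L r B m b S = TS L r B m b ∅) := by
    intro L hL
    constructor
    · intro hr S _
      rw [TS_const h hL hr S, TS_const h hL hr ∅]
    · intro hS
      have h3 : (fun i : Fin r => coeff (i : ℕ) (MQV.tay L)) = 0 := by
        refine hs2 _ Submodule.mem_top fun S hS' => ?_
        have h4 := hS S.1 (Finset.mem_image_of_mem _ hS')
        rw [TS_eq h hf2 hL, TS_eq h hf2 hL, Finset.prod_empty, mul_one,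
          low_eq r _ _ (hone _)] at h4
        linear_combination h4
      intro i hi
      have h5 : coeff i (MQV.tay L) = 0 := congrFun h3 ⟨i, hi⟩
      rw [MQV.coeff_tay] at h5
      exact (div_eq_zero_iff.1 h5).resolve_right (by exact_mod_cast i.factorial_ne_zero)
  refine ⟨s.image Subtype.val, Finset.card_image_le.trans hs, ?_, fun L hL => ⟨key L hL, ?_⟩⟩
  · intro S hS
    obtain ⟨S', -, rfl⟩ := Finset.mem_image.1 hS
    exact S'.2
  · intro c hc
    constructor
    · rintro ⟨h1, h2⟩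
      have h3 : ∀ S, TQ L r c B m b S = 1 := by
        intro S
        rw [TQ_eq, TS_const h hL h1 S, h2, div_self hc]
      exact ⟨h3 ∅, fun S _ => h3 S⟩
    · rintro ⟨h1, h2⟩
      have h3 : ∀ S, TQ L r c B m b S = 1 → TS L r B m b S = c := by
        intro S hS
        rwa [TQ_eq, div_eq_one_iff_eq hc] at hS
      have h4 : ∀ i < r, iteratedDeriv i L 1 = 0 :=
        (key L hL).2 fun S hS => by rw [h3 S (h2 S hS), h3 ∅ h1]
      refine ⟨h4, ?_⟩
      rw [← h3 ∅ h1, TS_const h hL h4 ∅]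

end TF14
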