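import Pool.Agent.W_92892c_TF14.Core2
import Pool.Agent.W_92892c_TF14.Ser

/-!
Three factors, finite forms, in terms of power series.
-/

set_option autoImplicit false

namespace TF14

open Finset Filter Topology

/-- The lowest term of a series whose coefficients of index less than `r` are not all zero. -/
theorem exists_low {P : PowerSeries ℂ} {r : ℕ} (h : ¬ ∀ i < r, PowerSeries.coeff i P = 0) :
    ∃ (o : ℕ) (F : PowerSeries ℂ), o < r ∧ P = PowerSeries.X ^ o * F ∧
      PowerSeries.coeff 0 F ≠ 0 := by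
  classical
  push Not at h
  obtain ⟨i0, hi0, hne⟩ := h
  have hex : ∃ i, PowerSeries.coeff i P ≠ 0 := ⟨i0, hne⟩
  have h1 : PowerSeries.X ^ (Nat.find hex) ∣ P := by
    rw [PowerSeries.X_pow_dvd_iff]
    intro m hm
    have h2 := Nat.find_min hex hm
    push Not at h2
    exact h2
  obtain ⟨F, hF⟩ := h1
  refine ⟨Nat.find hex, F, (Nat.find_min' hex hne).trans_lt hi0, hF, ?_⟩
  have h3 := Nat.find_spec hex
  intro h4
  apply h3
  have h5 : PowerSeries.coeff (Nat.find hex) P =
      PowerSeries.coeff (Nat.find hex) (PowerSeries.X ^ (Nat.find hex) * F) :=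
    congrArg _ hF
  rw [h5, PowerSeries.coeff_X_pow_mul', if_pos le_rfl, Nat.sub_self, h4]

theorem card_image_log {A : ℕ → ℝ} (hA : ∀ i, 0 < A i) (I : Finset ℕ) :
    (I.image fun i => ((-Real.log (A i) : ℝ) : ℂ)).card = (I.image A).card := by
  classical
  have h1 : (I.image fun i => ((-Real.log (A i) : ℝ) : ℂ)) =
      (I.image A).image fun a : ℝ => ((-Real.log a : ℝ) : ℂ) := by
    rw [Finset.image_image]
    rfl
  rw [h1]
  refine Finset.card_image_of_injOn ?_
  intro a ha b hb hab
  obtain ⟨i, -, rfl⟩ := Finset.mem_image.1 (Finset.mem_coe.1 ha)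
  obtain ⟨j, -, rfl⟩ := Finset.mem_image.1 (Finset.mem_coe.1 hb)
  have h3 : ((-Real.log (A i) : ℝ) : ℂ) = ((-Real.log (A j) : ℝ) : ℂ) := hab
  have h2 : -Real.log (A i) = -Real.log (A j) := by exact_mod_cast h3
  exact Real.log_injOn_pos (Set.mem_Ioi.2 (hA i)) (Set.mem_Ioi.2 (hA j)) (neg_injective h2)

/-- All the coefficients agree if the order is at least `r`. -/
theorem series_const2 {G : PowerSeries ℂ} (hG : PowerSeries.coeff 0 G = 1) {x : ℕ → ℂ}
    {f : ℕ → PowerSeries ℂ} (hf : ∀ i, W92892c.IsType G (x i) (f i)) {P : PowerSeries ℂ} {r : ℕ}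
    (h : ∀ i < r, PowerSeries.coeff i P = 0) (i j : ℕ) :
    PowerSeries.coeff r (P * (f i * f j)) = PowerSeries.coeff r P := by
  rw [coeff_mul_of_lt h, PowerSeries.coeff_zero_eq_constantCoeff_apply, map_mul,
    ← PowerSeries.coeff_zero_eq_constantCoeff_apply,
    ← PowerSeries.coeff_zero_eq_constantCoeff_apply, W92892c.IsType.coeff_zero hG (hf i),
    W92892c.IsType.coeff_zero hG (hf j), mul_one, mul_one]

/-- The finite exact form. -/
theorem series_fin {G : PowerSeries ℂ} (hG : PowerSeries.coeff 0 G = 1) {A : ℕ → ℝ}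
    (hA : ∀ i, 0 < A i) {f : ℕ → PowerSeries ℂ}
    (hf : ∀ i, W92892c.IsType G ((-Real.log (A i) : ℝ) : ℂ) (f i)) (P : PowerSeries ℂ) (r : ℕ)
    {I J : Finset ℕ} (hI : r ^ 2 < (I.image A).card) (hJ : (r + 1) ^ 2 < (J.image A).card) :
    (∀ i < r, PowerSeries.coeff i P = 0) ↔
      ∀ i ∈ I, ∃ s : ℂ, ∀ j ∈ J, PowerSeries.coeff r (P * (f i * f j)) = s := by
  constructor
  · intro h i _
    exact ⟨PowerSeries.coeff r P, fun j _ => series_const2 hG hf h i j⟩
  · intro h
    by_contra hcon
    obtain ⟨o, F, ho, hPF, hF⟩ := exists_low hcon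
    have hk : r - o = 0 := by
      refine core_fin hG hf hF (I := I) (J := J) (k := r - o) ?_ ?_ ?_
      · rw [card_image_log hA]
        exact (Nat.pow_le_pow_left (Nat.sub_le r o) 2).trans_lt hI
      · rw [card_image_log hA]
        exact (Nat.pow_le_pow_left (Nat.succ_le_succ (Nat.sub_le r o)) 2).trans_lt hJ
      · intro i hi
        obtain ⟨s, hs⟩ := h i hi
        refine ⟨s, fun j hj => ?_⟩
        rw [← hs j hj, hPF, mul_assoc (PowerSeries.X ^ o), PowerSeries.coeff_X_pow_mul',
          if_pos ho.le, mul_assoc]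
    omega

/-- The asymptotic form with finitely many `i`. -/
theorem series_asy {G : PowerSeries ℂ} (hG : PowerSeries.coeff 0 G = 1) {A : ℕ → ℝ}
    (hA : ∀ i, 0 < A i) (hAt : Tendsto A atTop atTop) {f : ℕ → PowerSeries ℂ}
    (hf : ∀ i, W92892c.IsType G ((-Real.log (A i) : ℝ) : ℂ) (f i)) (P : PowerSeries ℂ) (r : ℕ)
    {I : Finset ℕ} (hI : r ^ 2 < (I.image A).card) :
    (∀ i < r, PowerSeries.coeff i P = 0) ↔
      ∀ i ∈ I, Tendsto (fun n => PowerSeries.coeff r (P * (f i * f n)) /
        ((Real.log (A n) : ℝ) : ℂ)) atTop (𝓝 0) := by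
  have hlog : Tendsto (fun n => Real.log (A n)) atTop atTop := Real.tendsto_log_atTop.comp hAt
  have hnorm : Tendsto (fun n => ‖((-Real.log (A n) : ℝ) : ℂ)‖) atTop atTop := by
    refine (tendsto_abs_atTop_atTop.comp hlog).congr fun n => ?_
    simp only [Function.comp, Complex.norm_real, Real.norm_eq_abs, abs_neg]
  constructor
  · intro h i _
    have h1 : Tendsto (fun n => ((Real.log (A n) : ℝ) : ℂ)⁻¹) atTop (𝓝 0) := by
      rw [tendsto_zero_iff_norm_tendsto_zero]
      refine (tendsto_inv_atTop_zero.comp hnorm).congr fun n => ?_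
      simp only [Function.comp, norm_inv, Complex.norm_real, Real.norm_eq_abs, abs_neg]
    have h2 := h1.const_mul (PowerSeries.coeff r P)
    rw [mul_zero] at h2
    refine h2.congr fun n => ?_
    rw [series_const2 hG hf h, div_eq_mul_inv]
  · intro h
    by_contra hcon
    obtain ⟨o, F, ho, hPF, hF⟩ := exists_low hcon
    have hk : r - o = 0 := by
      refine core_asy hG hnorm hf hF (I := I) (k := r - o) ?_ ?_
      · rw [card_image_log hA]
        exact (Nat.pow_le_pow_left (Nat.sub_le r o) 2).trans_lt hI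
      · intro i hi
        have h1 := (h i hi).neg
        rw [neg_zero] at h1
        refine h1.congr fun n => ?_
        rw [hPF, mul_assoc (PowerSeries.X ^ o), PowerSeries.coeff_X_pow_mul', if_pos ho.le,
          div_eq_mul_inv, mul_assoc F]
        push_cast
        rw [inv_neg]
        ring
    omega

end TF14
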